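import Pool.Agent.Q172.KT.Def
import Pool.Agent.W618.PC.Final

set_option autoImplicit false

/-! Project KT (helper172), job KT-B1: arc and monotone retraction in a forest. -/

open Set Topology Filter

namespace Pool.Agent.Q238.KT

open Pool.Agent.Q172.KT

variable {E : Type} [MetricSpace E]

theorem no_loop (hE : NoCircle E) (f : ℝ → E) (hf : ContinuousOn f (Icc 0 2)) (h02 : f 0 = f 2)
    (hinj : InjOn f (Ico 0 2)) : False := by
  have : Fact ((0 : ℝ) < 2) := ⟨two_pos⟩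
  have hc : Continuous (AddCircle.liftIco (2 : ℝ) 0 f) := AddCircle.liftIco_zero_continuous h02 hf
  have hi : Function.Injective (AddCircle.liftIco (2 : ℝ) 0 f) := by
    unfold AddCircle.liftIco
    refine Function.Injective.comp ?_ (AddCircle.equivIco (2 : ℝ) 0).injective
    intro x y h
    have hx : (x : ℝ) ∈ Ico (0 : ℝ) 2 := ⟨x.2.1, by linarith [x.2.2]⟩
    have hy : (y : ℝ) ∈ Ico (0 : ℝ) 2 := ⟨y.2.1, by linarith [y.2.2]⟩
    exact Subtype.ext (hinj hx hy h)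
  refine hE (AddCircle.liftIco (2 : ℝ) 0 f ∘ (AddCircle.homeomorphCircle (T := (2 : ℝ))
    two_ne_zero).symm) (hc.comp (Homeomorph.continuous _)) (hi.comp (Homeomorph.injective _))

theorem first_hit {γ : ℝ → E} (hγ : Continuous γ) {A : Set E} (hA : IsClosed A) (h1 : γ 1 ∈ A) :
    ∃ s ∈ Icc (0 : ℝ) 1, γ s ∈ A ∧ ∀ r ∈ Ico (0 : ℝ) s, γ r ∉ A := by
  have hcomp : IsCompact (Icc (0 : ℝ) 1 ∩ γ ⁻¹' A) := isCompact_Icc.inter_right (hA.preimage hγ)
  obtain ⟨s, hs⟩ := hcomp.exists_isLeast ⟨1, ⟨zero_le_one, le_rfl⟩, h1⟩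
  refine ⟨s, hs.1.1, hs.1.2, ?_⟩
  intro r hr hrA
  have := hs.2 ⟨⟨hr.1, hr.2.le.trans hs.1.1.2⟩, hrA⟩
  linarith [hr.2]

/-- `x` is attached to the point `y` of `A` inside `K`. -/
def Att (K A : Set E) (x y : E) : Prop :=
  ∃ γ : ℝ → E, Continuous γ ∧ γ 0 = x ∧ γ 1 = y ∧ (∀ s ∈ Icc (0 : ℝ) 1, γ s ∈ K) ∧
    ∀ s ∈ Ico (0 : ℝ) 1, γ s ∉ A

theorem att_exists {K A V : Set E} (hA : IsClosed A) (hVK : V ⊆ K) {x y : E}
    (hx : x ∉ A) (hj : JoinedIn V x y) (hy : y ∈ A) : ∃ z ∈ V, z ∈ A ∧ Att K A x z := by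
  obtain ⟨γ, hγ⟩ := hj
  have hV : ∀ s, γ.extend s ∈ V := fun s => hγ _
  obtain ⟨s0, hs0, hs1, hs2⟩ := first_hit γ.continuous_extend hA (by
    rw [Path.extend_one]
    exact hy)
  have hpos : 0 < s0 := by
    rcases eq_or_lt_of_le hs0.1 with h | h
    · exfalso
      rw [← h, Path.extend_zero] at hs1
      exact hx hs1
    · exact h
  refine ⟨γ.extend s0, hV _, hs1, fun s => γ.extend (s * s0), ?_, ?_, ?_, ?_, ?_⟩
  · exact γ.continuous_extend.comp (by fun_prop)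
  · simp
  · simp
  · intro s _
    exact hVK (hV _)
  · intro s hs
    apply hs2
    refine ⟨mul_nonneg hs.1 hpos.le, ?_⟩
    nlinarith [hs.2]

/-- concatenation -/
noncomputable def cat (γ γ' : ℝ → E) (s : ℝ) : E :=
  if s ≤ 1 / 2 then γ (2 * s) else γ' (2 * s - 1)

theorem cat_cont {γ γ' : ℝ → E} (h : Continuous γ) (h' : Continuous γ') (he : γ 1 = γ' 0) :
    Continuous (cat γ γ') := by
  unfold cat
  refine Continuous.if_le (h.comp (by fun_prop)) (h'.comp (by fun_prop)) continuous_id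
    continuous_const ?_
  intro x hx
  rw [hx]
  norm_num
  exact he

theorem att_trans {K A V : Set E} (hVK : V ⊆ K) (hVA : ∀ z ∈ V, z ∉ A) {x x' y : E}
    (hj : JoinedIn V x x') (h : Att K A x' y) : Att K A x y := by
  obtain ⟨γ, hγ⟩ := hj
  have hV : ∀ s, γ.extend s ∈ V := fun s => hγ _
  obtain ⟨η, h1, h2, h3, h4, h5⟩ := h
  refine ⟨cat γ.extend η, cat_cont γ.continuous_extend h1 (by rw [Path.extend_one, h2]), ?_, ?_,
    ?_, ?_⟩
  · unfold cat
    rw [if_pos (by norm_num), mul_zero, Path.extend_zero]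
  · unfold cat
    rw [if_neg (by norm_num)]
    norm_num
    exact h3
  · intro s hs
    unfold cat
    split_ifs with h
    · exact hVK (hV _)
    · push Not at h
      exact h4 _ ⟨by linarith, by linarith [hs.2]⟩
  · intro s hs
    unfold cat
    split_ifs with h
    · exact hVA _ (hV _)
    · push Not at h
      exact h5 _ ⟨by linarith, by linarith [hs.2]⟩

/-- the arc -/
structure Arc (K : Set E) (α : ℝ → E) (θ : E → ℝ) : Prop where
  cα : Continuous α
  cθ : Continuous θ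
  inv : ∀ t ∈ Icc (0 : ℝ) 1, θ (α t) = t
  mem : ∀ t ∈ Icc (0 : ℝ) 1, α t ∈ K

theorem att_unique_lt (hE : NoCircle E) {K : Set E} {α : ℝ → E} {θ : E → ℝ} (ha : Arc K α θ)
    {x : E} {t t' : ℝ} (ht : t ∈ Icc (0 : ℝ) 1) (ht' : t' ∈ Icc (0 : ℝ) 1)
    (h : Att K (α '' Icc 0 1) x (α t)) (h' : Att K (α '' Icc 0 1) x (α t')) (hlt : t < t') :
    False := by
  obtain ⟨γ, g1, g2, g3, -, g5⟩ := h
  obtain ⟨γ', g1', g2', g3', -, g5'⟩ := h'
  set A := α '' Icc (0 : ℝ) 1 with hA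
  set σ := cat (fun s => γ (1 - s)) γ' with hσ
  have hσc : Continuous σ := cat_cont (g1.comp (by fun_prop)) g1' (by
    simp only [sub_self]
    rw [g2, g2'])
  have hσ0 : σ 0 = α t := by
    rw [hσ]
    unfold cat
    rw [if_pos (by norm_num), mul_zero]
    show γ (1 - 0) = α t
    rw [sub_zero, g3]
  have hσ1 : σ 1 = α t' := by
    rw [hσ]
    unfold cat
    rw [if_neg (by norm_num)]
    norm_num
    exact g3'
  have hσA : ∀ s ∈ Ioo (0 : ℝ) 1, σ s ∉ A := by
    intro s hs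
    rw [hσ]
    unfold cat
    split_ifs with h
    · exact g5 _ ⟨by linarith, by linarith [hs.1]⟩
    · push Not at h
      exact g5' _ ⟨by linarith, by linarith [hs.2]⟩
  have hne : α t ≠ α t' := by
    intro h
    have h1 := ha.inv t ht
    rw [h, ha.inv t' ht'] at h1
    linarith
  obtain ⟨β, ψ, θ', b1, b2, b3, b4, b5, -, b7⟩ := Pool.Agent.W618.PC.arc E σ hσc
    (by rw [hσ0, hσ1]; exact hne)
  rw [hσ0] at b4
  rw [hσ1] at b5
  have hβA : ∀ s ∈ Ioo (0 : ℝ) 1, β s ∉ A := by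
    intro s hs
    obtain ⟨k1, k2⟩ := b7 s ⟨hs.1.le, hs.2.le⟩
    have hs3 := b3 s ⟨hs.1.le, hs.2.le⟩
    rw [k2]
    apply hσA
    constructor
    · rcases eq_or_lt_of_le k1.1 with h | h
      · exfalso
        rw [← h, hσ0, ← b4] at k2
        rw [k2, b3 0 ⟨le_rfl, zero_le_one⟩] at hs3
        linarith [hs.1]
      · exact h
    · rcases eq_or_lt_of_le k1.2 with h | h
      · exfalso
        rw [h, hσ1, ← b5] at k2
        rw [k2, b3 1 ⟨zero_le_one, le_rfl⟩] at hs3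
        linarith [hs.2]
      · exact h
  set f : ℝ → E := fun s => if s ≤ 1 then α (t + s * (t' - t)) else β (2 - s) with hf
  have hfc : Continuous f := by
    refine Continuous.if_le (ha.cα.comp (by fun_prop)) (b1.comp (by fun_prop)) continuous_id
      continuous_const ?_
    intro s hs
    rw [hs]
    norm_num
    rw [b5]
  have hin : ∀ s ∈ Icc (0 : ℝ) 1, t + s * (t' - t) ∈ Icc (0 : ℝ) 1 := by
    intro s hs
    constructor
    · have := ht.1
      nlinarith [hs.1]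
    · have := ht'.2
      nlinarith [hs.2, hs.1]
  refine no_loop hE f hfc.continuousOn ?_ ?_
  · simp only [hf]
    rw [if_pos (by norm_num), if_neg (by norm_num)]
    norm_num
    rw [b4]
  · have hmain : ∀ s1 ∈ Ico (0 : ℝ) 2, ∀ s2 ∈ Ico (0 : ℝ) 2, s1 < s2 → f s1 ≠ f s2 := by
      intro s1 h1 s2 h2 h12 heq
      simp only [hf] at heq
      by_cases c2 : s2 ≤ 1
      · have c1 : s1 ≤ 1 := by linarith
        rw [if_pos c1, if_pos c2] at heq
        have e1 := ha.inv _ (hin s1 ⟨h1.1, c1⟩)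
        rw [heq, ha.inv _ (hin s2 ⟨h2.1, c2⟩)] at e1
        nlinarith
      · rw [if_neg c2] at heq
        push Not at c2
        by_cases c1 : s1 ≤ 1
        · rw [if_pos c1] at heq
          apply hβA (2 - s2) ⟨by linarith [h2.2], by linarith⟩
          rw [← heq]
          exact ⟨_, hin s1 ⟨h1.1, c1⟩, rfl⟩
        · rw [if_neg c1] at heq
          push Not at c1
          have e1 := b3 (2 - s1) ⟨by linarith [h1.2], by linarith⟩
          rw [heq, b3 (2 - s2) ⟨by linarith [h2.2], by linarith⟩] at e1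
          linarith
    intro s1 h1 s2 h2 heq
    rcases lt_trichotomy s1 s2 with h | h | h
    · exact absurd heq (hmain s1 h1 s2 h2 h)
    · exact h
    · exact absurd heq.symm (hmain s2 h2 s1 h1 h)

theorem att_unique (hE : NoCircle E) {K : Set E} {α : ℝ → E} {θ : E → ℝ} (ha : Arc K α θ)
    {x : E} {t t' : ℝ} (ht : t ∈ Icc (0 : ℝ) 1) (ht' : t' ∈ Icc (0 : ℝ) 1)
    (h : Att K (α '' Icc 0 1) x (α t)) (h' : Att K (α '' Icc 0 1) x (α t')) : t = t' := by
  rcases lt_trichotomy t t' with hh | hh | hh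
  · exact (att_unique_lt hE ha ht ht' h h' hh).elim
  · exact hh
  · exact (att_unique_lt hE ha ht' ht h' h hh).elim

/-- the retraction as a relation -/
def Rel (K : Set E) (α : ℝ → E) (x : E) (t : ℝ) : Prop :=
  t ∈ Icc (0 : ℝ) 1 ∧ (x = α t ∨ (x ∉ α '' Icc (0 : ℝ) 1 ∧ Att K (α '' Icc 0 1) x (α t)))

theorem rel_unique (hE : NoCircle E) {K : Set E} {α : ℝ → E} {θ : E → ℝ} (ha : Arc K α θ)
    {x : E} {t t' : ℝ} (h : Rel K α x t) (h' : Rel K α x t') : t = t' := by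
  obtain ⟨ht, h1 | h1⟩ := h <;> obtain ⟨ht', h2 | h2⟩ := h'
  · have e1 := ha.inv t ht
    rw [← h1, h2, ha.inv t' ht'] at e1
    exact e1.symm
  · exact absurd ⟨t, ht, h1.symm⟩ h2.1
  · exact absurd ⟨t', ht', h2.symm⟩ h1.1
  · exact att_unique hE ha ht ht' h1.2 h2.2

theorem combS : S_comb := by
  intro hlpc E _ _ _ hE K hK hKc b hb b' hb' hbb
  classical
  have hlp : LocallyPathConnectedSpace E := hlpc E
  have hpc : IsPathConnected K := (hK.isOpen.isConnected_iff_isPathConnected).1 hKc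
  obtain ⟨δ, hδ⟩ := hpc.joinedIn b hb b' hb'
  obtain ⟨α, ψ, θ, a1, a2, a3, a4, a5, -, a7⟩ := Pool.Agent.W618.PC.arc E δ.extend
    δ.continuous_extend (by rw [Path.extend_zero, Path.extend_one]; exact hbb)
  rw [Path.extend_zero] at a4
  rw [Path.extend_one] at a5
  have ha : Arc K α θ := ⟨a1, a2, a3, fun t ht => by
    rw [(a7 t ht).2]
    exact hδ _⟩
  set A := α '' Icc (0 : ℝ) 1 with hA
  have hAcomp : IsCompact A := isCompact_Icc.image a1
  have hAcl : IsClosed A := hAcomp.isClosed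
  -- existence
  have hex : ∀ x ∈ K, ∃ t, Rel K α x t := by
    intro x hx
    by_cases hxA : x ∈ A
    · obtain ⟨t, ht, rfl⟩ := hxA
      exact ⟨t, ht, Or.inl rfl⟩
    · obtain ⟨z, -, hzA, hz⟩ := att_exists hAcl (Subset.refl K) hxA (hpc.joinedIn x hx b hb)
        ⟨0, ⟨le_rfl, zero_le_one⟩, a4⟩
      obtain ⟨t, ht, rfl⟩ := hzA
      exact ⟨t, ht, Or.inr ⟨hxA, hz⟩⟩
  set π : E → ℝ := fun x => if h : ∃ t, Rel K α x t then h.choose else 0 with hπ
  have hπeq : ∀ x t, Rel K α x t → π x = t := by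
    intro x t h
    have h1 : ∃ t, Rel K α x t := ⟨t, h⟩
    simp only [hπ]
    rw [dif_pos h1]
    exact rel_unique hE ha h1.choose_spec h
  have hπrel : ∀ x ∈ K, Rel K α x (π x) := by
    intro x hx
    obtain ⟨t, ht⟩ := hex x hx
    rw [hπeq x t ht]
    exact ht
  -- locally constant outside the arc
  have hloc : ∀ x ∈ K, x ∉ A → ∃ V : Set E, IsOpen V ∧ x ∈ V ∧ V ⊆ K ∧
      ∀ y ∈ V, y ∉ A ∧ π y = π x := by
    intro x hx hxA
    have hnhds : K ∩ Aᶜ ∈ 𝓝 x := (hK.isOpen.inter hAcl.isOpen_compl).mem_nhds ⟨hx, hxA⟩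
    obtain ⟨V, ⟨hV1, hV2⟩, hV3⟩ := (path_connected_basis x).mem_iff.1 hnhds
    obtain ⟨ht, h1 | h1⟩ := hπrel x hx
    · exact absurd ⟨_, ht, h1.symm⟩ hxA
    · refine ⟨interior V, isOpen_interior, mem_interior_iff_mem_nhds.2 hV1,
        fun y hy => (hV3 (interior_subset hy)).1, ?_⟩
      intro y hy
      have hy' := interior_subset hy
      refine ⟨(hV3 hy').2, ?_⟩
      apply hπeq
      refine ⟨ht, Or.inr ⟨(hV3 hy').2, ?_⟩⟩
      exact att_trans (V := V) (fun z hz => (hV3 hz).1) (fun z hz => (hV3 hz).2)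
        (hV2.joinedIn y hy' x (mem_of_mem_nhds hV1)) h1.2
  refine ⟨α, π, ⟨hK, hKc, a1.continuousOn, ha.mem, ?_, ?_, ?_, ?_⟩, a4, a5⟩
  · intro t ht
    exact hπeq _ _ ⟨ht, Or.inl rfl⟩
  · intro x hx
    by_cases hxA : x ∈ A
    · obtain ⟨t, ht, rfl⟩ := hxA
      have hπt : π (α t) = t := hπeq _ _ ⟨ht, Or.inl rfl⟩
      apply ContinuousAt.continuousWithinAt
      rw [Metric.continuousAt_iff']
      intro ε hε
      set F := α '' (Icc (0 : ℝ) 1 ∩ {u | ε ≤ |u - t|}) with hF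
      have hFc : IsClosed F := by
        apply IsCompact.isClosed
        apply IsCompact.image _ a1
        exact isCompact_Icc.inter_right (isClosed_le continuous_const (by fun_prop))
      have hxF : α t ∉ F := by
        rintro ⟨u, ⟨hu, hu2⟩, hu3⟩
        have e1 := a3 u hu
        rw [hu3, a3 t ht] at e1
        rw [← e1] at hu2
        simp only [Set.mem_ofPred_eq, sub_self, abs_zero] at hu2
        linarith
      have hnhds : K ∩ Fᶜ ∈ 𝓝 (α t) := (hK.isOpen.inter hFc.isOpen_compl).mem_nhds ⟨hx, hxF⟩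
      obtain ⟨V, ⟨hV1, hV2⟩, hV3⟩ := (path_connected_basis (α t)).mem_iff.1 hnhds
      filter_upwards [hV1] with y hy
      rw [hπt, Real.dist_eq]
      by_contra hcon
      push Not at hcon
      by_cases hyA : y ∈ A
      · obtain ⟨u, hu, rfl⟩ := hyA
        rw [hπeq (α u) u ⟨hu, Or.inl rfl⟩] at hcon
        exact (hV3 hy).2 ⟨u, ⟨hu, hcon⟩, rfl⟩
      · obtain ⟨z, hzV, hzA, hz⟩ := att_exists (K := K) hAcl (fun z hz => (hV3 hz).1) hyA
          (hV2.joinedIn y hy (α t) (mem_of_mem_nhds hV1)) ⟨t, ht, rfl⟩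
        obtain ⟨u, hu, rfl⟩ := hzA
        rw [hπeq y u ⟨hu, Or.inr ⟨hyA, hz⟩⟩] at hcon
        exact (hV3 hzV).2 ⟨u, ⟨hu, hcon⟩, rfl⟩
    · obtain ⟨V, hV1, hV2, hV3, hV4⟩ := hloc x hx hxA
      apply ContinuousAt.continuousWithinAt
      have h1 : π =ᶠ[𝓝 x] fun _ => π x := by
        filter_upwards [hV1.mem_nhds hV2] with y hy
        exact (hV4 y hy).2
      exact (continuousAt_const).congr h1.symm
  · intro x hx
    exact (hπrel x hx).1
  · intro t ht
    rw [isOpen_iff_forall_mem_open]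
    rintro x ⟨hx, hxt, hne⟩
    have hxA : x ∉ A := by
      rintro ⟨u, hu, rfl⟩
      rw [hπeq (α u) u ⟨hu, Or.inl rfl⟩] at hxt
      rw [hxt] at hne
      exact hne rfl
    obtain ⟨V, hV1, hV2, hV3, hV4⟩ := hloc x hx hxA
    refine ⟨V, ?_, hV1, hV2⟩
    intro y hy
    refine ⟨hV3 hy, ?_, ?_⟩
    · rw [(hV4 y hy).2, hxt]
    · intro h
      exact (hV4 y hy).1 ⟨t, ht, h.symm⟩

end Pool.Agent.Q238.KT
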