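import Pool.Agent.Q172.KT.Fin

set_option autoImplicit false

/-! Project KT (helper172), job KT-B4: one surgery. -/

open Set Topology Filter

namespace Pool.Agent.Q238.KT

open Pool.Agent.Q172.KT

section aux

variable {E : Type} [MetricSpace E]

/-- A subspace covered by relatively open locally connected sets. -/
theorem lc_cover {Cs : Set E} (h : ∀ x ∈ Cs, ∃ S O : Set E, IsOpen O ∧ x ∈ S ∧ S ⊆ Cs ∧
    (∀ y ∈ Cs, y ∈ S ↔ y ∈ O) ∧ LocallyConnectedSpace S) : LocallyConnectedSpace Cs := by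
  rw [locallyConnectedSpace_iff_connected_subsets]
  rintro ⟨x, hx⟩ U hU
  obtain ⟨S, O, hO, hxS, hSC, hSO, hlc⟩ := h x hx
  have hemb : IsOpenEmbedding (inclusion hSC) := by
    refine IsOpenEmbedding.inclusion hSC ?_
    have h1 : (Subtype.val ⁻¹' S : Set Cs) = Subtype.val ⁻¹' O := by
      ext y
      exact hSO y y.2
    rw [h1]
    exact hO.preimage continuous_subtype_val
  have h1 : (inclusion hSC) ⁻¹' U ∈ 𝓝 (⟨x, hxS⟩ : S) :=
    hemb.continuous.continuousAt.preimage_mem_nhds hU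
  obtain ⟨V, hV, hVc, hVU⟩ := locallyConnectedSpace_iff_connected_subsets.1 hlc _ _ h1
  refine ⟨inclusion hSC '' V, ?_, hVc.image _ hemb.continuous.continuousOn, ?_⟩
  · exact hemb.isOpenMap.image_mem_nhds hV
  · rintro _ ⟨y, hy, rfl⟩
    exact hVU hy

theorem conn_sub {Cs S : Set E} (hS : IsConnected S) (hSC : S ⊆ Cs) :
    IsConnected (Subtype.val ⁻¹' S : Set Cs) := by
  have h1 : (Subtype.val '' (Subtype.val ⁻¹' S : Set Cs) : Set E) = S := by
    rw [Subtype.image_preimage_coe]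
    exact inter_eq_right.2 hSC
  refine ⟨?_, ?_⟩
  · obtain ⟨x, hx⟩ := hS.nonempty
    exact ⟨⟨x, hSC hx⟩, hx⟩
  · rw [← IsInducing.subtypeVal.isPreconnected_image, h1]
    exact hS.isPreconnected

/-- Reversal of a comb. -/
theorem comb_rev {K : Set E} {α : ℝ → E} {π : E → ℝ} (h : Comb K α π) :
    Comb K (fun t => α (1 - t)) (fun x => 1 - π x) := by
  have hm : ∀ t ∈ Icc (0 : ℝ) 1, 1 - t ∈ Icc (0 : ℝ) 1 := fun t ht =>
    ⟨by linarith [ht.2], by linarith [ht.1]⟩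
  refine ⟨h.clopen, h.conn, ?_, fun t ht => h.mem _ (hm t ht), fun t ht => ?_, ?_,
    fun x hx => hm _ (h.rng x hx), fun t ht => ?_⟩
  · exact h.cα.comp (continuousOn_const.sub continuousOn_id) hm
  · rw [h.pα _ (hm t ht)]
    ring
  · exact continuousOn_const.sub h.cπ
  · have h1 : {x ∈ K | 1 - π x = t ∧ x ≠ α (1 - t)} = {x ∈ K | π x = 1 - t ∧ x ≠ α (1 - t)} := by
      ext x
      refine ⟨fun hx => ⟨hx.1, by linarith [hx.2.1], hx.2.2⟩,
        fun hx => ⟨hx.1, by linarith [hx.2.1], hx.2.2⟩⟩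
    rw [h1]
    exact h.hang _ (hm t ht)

end aux

/-- The surgery, for an increasing sequence of cutting points. -/
theorem step_inc (hcomp : S_compact) (hconn : S_conn) (hlc : S_lc) (hcirc : S_circle)
    (hglue : S_glue) (hparts : S_parts) (Z : Type) [MetricSpace Z] (k : ℕ) (Y : Set Z) (p : Z)
    (N : ℕ) (E : Type) [MetricSpace E] [CompactSpace E] [LocallyConnectedSpace E]
    (hE : NoCircle E) (f : E → Z) (hf : Continuous f) (hfY : ∀ x, f x ∈ Y)
    (hfk : ∀ y ∈ Y, (f ⁻¹' {y}).ncard = k) (κ : E → Fin N) (hκ : Continuous κ)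
    (hκc : ∀ i, IsConnected (κ ⁻¹' {i}) ∧ ∃ x, κ x = i ∧ f x = p) (i₀ : Fin N)
    (α : ℝ → E) (π : E → ℝ) (hC : Comb (κ ⁻¹' {i₀}) α π) (h0 : f (α 0) = p) (h1 : f (α 1) = p)
    (t : ℕ → ℝ) (T : ℝ) (m : ℕ → E) (ht : ∀ j, t j ∈ Icc (0 : ℝ) 1) (hT : T ∈ Icc (0 : ℝ) 1)
    (hmono : StrictMono t) (hlim : Tendsto t atTop (𝓝 T))
    (hfm : ∀ j, f (m j) = f (α (t j)))
    (hm : ∀ j, ¬ (m j ∈ κ ⁻¹' {i₀} ∧ t 0 < π (m j) ∧ π (m j) < T)) : Good Z k Y p (N + 1) := by
  classical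
  set K : Set E := κ ⁻¹' {i₀} with hKdef
  obtain ⟨hp1, hp2, hp3, hp4⟩ := hparts E K α π hC
  have htT : ∀ j, t j < T := fun j =>
    lt_of_lt_of_le (hmono (Nat.lt_succ_self j)) (hmono.monotone.ge_of_tendsto hlim _)
  -- the core
  set Cs : Set E := {x | ¬ (x ∈ K ∧ t 0 < π x ∧ π x < T)} with hCs
  have hKo : IsOpen K := hC.clopen.isOpen
  have hopen : ∀ U : Set ℝ, IsOpen U → IsOpen (K ∩ π ⁻¹' U) := fun U hU =>
    hC.cπ.isOpen_inter_preimage hKo hU
  have hCcl : IsClosed Cs := by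
    rw [← isOpen_compl_iff]
    have h2 : Csᶜ = K ∩ π ⁻¹' (Ioo (t 0) T) := by
      ext x
      simp only [hCs, mem_compl_iff, mem_setOf_eq, not_not]
      rfl
    rw [h2]
    exact hopen _ isOpen_Ioo
  have hCcomp : CompactSpace Cs := isCompact_iff_compactSpace.1 hCcl.isCompact
  -- the two parts of `K` in `Cs`
  have hA : {x ∈ K | π x ≤ t 0} ⊆ Cs := fun x hx h => absurd hx.2 (not_le.2 h.2.1)
  have hB : {x ∈ K | T ≤ π x} ⊆ Cs := fun x hx h => absurd hx.2 (not_le.2 h.2.2)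
  have hCslc : LocallyConnectedSpace Cs := by
    refine lc_cover fun x hx => ?_
    by_cases hxK : x ∈ K
    · by_cases hxT : T ≤ π x
      · refine ⟨{x ∈ K | T ≤ π x}, K ∩ π ⁻¹' (Ioi (t 0)), hopen _ isOpen_Ioi, ⟨hxK, hxT⟩, hB,
          fun y hy => ⟨fun h => ⟨h.1, lt_of_lt_of_le (htT 0) h.2⟩, fun h => ⟨h.1, ?_⟩⟩,
          (hp3 T hT).2.2⟩
        by_contra hcon
        exact hy ⟨h.1, h.2, not_le.1 hcon⟩
      · have hx0 : π x ≤ t 0 := by
          by_contra hcon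
          exact hx ⟨hxK, not_le.1 hcon, not_le.1 hxT⟩
        refine ⟨{x ∈ K | π x ≤ t 0}, K ∩ π ⁻¹' (Iio T), hopen _ isOpen_Iio, ⟨hxK, hx0⟩, hA,
          fun y hy => ⟨fun h => ⟨h.1, lt_of_le_of_lt h.2 (htT 0)⟩, fun h => ⟨h.1, ?_⟩⟩,
          (hp2 (t 0) (ht 0)).2.2⟩
        by_contra hcon
        exact hy ⟨h.1, not_le.1 hcon, h.2⟩
    · refine ⟨Kᶜ, Kᶜ, hC.clopen.compl.isOpen, hxK, fun y hy h => hy h.1,
        fun y _ => Iff.rfl, hC.clopen.compl.isOpen.locallyConnectedSpace⟩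
  -- the pieces
  let P : ℕ → Set E := fun j => {x ∈ K | (t j < π x ∧ π x ≤ t (j + 1)) ∨ x = α (t j)}
  let s : ℕ → E := fun j => α (t j)
  let r : ℕ → Cs := fun j => ⟨m j, hm j⟩
  have hPs : ∀ j, ∀ x ∈ P j, t j ≤ π x ∧ π x ≤ t (j + 1) := by
    intro j x hx
    rcases hx.2 with h2 | h2
    · exact ⟨h2.1.le, h2.2⟩
    · rw [h2, hC.pα _ (ht j)]
      exact ⟨le_rfl, (hmono (Nat.lt_succ_self j)).le⟩
  have hPs' : ∀ j, ∀ x ∈ P j, x ≠ s j → t j < π x := by
    intro j x hx hxs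
    rcases hx.2 with h2 | h2
    · exact h2.1
    · exact absurd h2 hxs
  have hPieces : Pieces P s := by
    refine ⟨fun j => ⟨hC.mem _ (ht j), Or.inr rfl⟩,
      fun j => (hp4 _ (ht j) _ (ht (j + 1)) (hmono (Nat.lt_succ_self j))).1,
      fun j => (hp4 _ (ht j) _ (ht (j + 1)) (hmono (Nat.lt_succ_self j))).2.1,
      fun j => (hp4 _ (ht j) _ (ht (j + 1)) (hmono (Nat.lt_succ_self j))).2.2, fun ε hε => ?_⟩
    obtain ⟨δ, hδ, hδT⟩ := hp1 T hT (ε / 2) (half_pos hε)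
    obtain ⟨n₀, hn₀⟩ := (Metric.tendsto_atTop.1 hlim) δ hδ
    refine (finite_lt_nat n₀).subset ?_
    rintro j ⟨x, hx, hdx⟩
    rw [mem_setOf_eq]
    by_contra hcon
    have hjn := hn₀ j (not_lt.1 hcon)
    rw [Real.dist_eq, abs_sub_comm, abs_of_pos (by linarith [htT j])] at hjn
    have key : ∀ y ∈ P j, dist y (α T) < ε / 2 := by
      intro y hy
      have h2 := hPs j y hy
      have h3 := htT (j + 1)
      apply hδT y hy.1 (ne_of_lt (lt_of_le_of_lt h2.2 h3))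
      rw [abs_sub_comm, abs_of_pos (by linarith)]
      linarith
    have h4 := key x hx
    have h5 := key (s j) ⟨hC.mem _ (ht j), Or.inr rfl⟩
    have h6 := dist_triangle_right x (s j) (α T)
    linarith
  -- the glued space
  have hWc : CompactSpace (Wd P s r) := hcomp P s r hPieces
  have hWl : LocallyConnectedSpace (Wd P s r) := hlc P s r hPieces
  have hWn : NoCircle (Wd P s r) :=
    hcirc P s r hPieces (noCircle_sub hE _) fun j => noCircle_sub hE _
  have hWf : Continuous (glue (fun x : Cs => f x) f : Wd P s r → Z) :=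
    hglue P s r hPieces _ f (hf.comp continuous_subtype_val) hf fun j => (hfm j).symm
  -- the bijection
  let Φ : Wd P s r → E := glue (fun x : Cs => (x : E)) (fun x => x)
  have hΦf : ∀ w, glue (fun x : Cs => f x) f w = f (Φ w) := by
    intro w
    rcases w.cases with ⟨x, rfl⟩ | ⟨j, x, h, h', rfl⟩
    · rfl
    · rfl
  have hpcC : ∀ j x, x ∈ P j → x ≠ s j → x ∉ Cs := by
    intro j x h h' hx
    exact hx ⟨h.1, lt_of_le_of_lt (hmono.monotone (Nat.zero_le j)) (hPs' j x h h'),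
      lt_of_le_of_lt (hPs j x h).2 (htT (j + 1))⟩
  have hΦi : Function.Injective Φ := by
    intro w w' hww
    rcases w.cases with ⟨x, rfl⟩ | ⟨i, x, h, h', rfl⟩ <;>
    rcases w'.cases with ⟨y, rfl⟩ | ⟨j, y, g, g', rfl⟩
    · have h2 : (x : E) = y := hww
      rw [Subtype.ext h2]
    · exfalso
      have h2 : (x : E) = y := hww
      exact hpcC j y g g' (h2 ▸ x.2)
    · exfalso
      have h2 : x = (y : E) := hww
      exact hpcC i x h h' (h2 ▸ y.2)
    · have h2 : x = y := hww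
      subst h2
      have hij : i = j := by
        by_contra hne
        rcases lt_or_gt_of_ne hne with hlt | hlt
        · have h3 := hmono.monotone (Nat.succ_le_of_lt hlt)
          have h4 := (hPs i x h).2
          have h5 := hPs' j x g g'
          exact absurd (lt_of_lt_of_le h5 h4) (not_lt.2 h3)
        · have h3 := hmono.monotone (Nat.succ_le_of_lt hlt)
          have h4 := (hPs j x g).2
          have h5 := hPs' i x h h'
          exact absurd (lt_of_lt_of_le h5 h4) (not_lt.2 h3)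
      subst hij
      rfl
  have hΦs : ∀ x, x ∈ range Φ := by
    intro x
    by_cases hx : x ∈ Cs
    · exact ⟨Wd.core ⟨x, hx⟩, rfl⟩
    · have hx' : x ∈ K ∧ t 0 < π x ∧ π x < T := by
        by_contra hcon
        exact hx hcon
      have hex : ∃ n, π x ≤ t n := by
        obtain ⟨n, hn⟩ := (hlim.eventually (eventually_gt_nhds hx'.2.2)).exists
        exact ⟨n, hn.le⟩
      obtain ⟨n, hn, hmin⟩ : ∃ n, π x ≤ t n ∧ ∀ l < n, ¬ π x ≤ t l :=
        ⟨Nat.find hex, Nat.find_spec hex, fun l hl => Nat.find_min hex hl⟩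
      have hn0 : n ≠ 0 := by
        rintro rfl
        exact absurd hn (not_le.2 hx'.2.1)
      obtain ⟨j, rfl⟩ := Nat.exists_eq_succ_of_ne_zero hn0
      have hj : t j < π x := not_le.1 (hmin j (Nat.lt_succ_self j))
      have hxs : x ≠ s j := by
        rintro rfl
        have h2 := hC.pα _ (ht j)
        rw [h2] at hj
        exact lt_irrefl _ hj
      exact ⟨Wd.pc j x ⟨hx'.1, Or.inl ⟨hj, hn⟩⟩ hxs, rfl⟩
  -- the numbers of the components
  let κ₀ : Cs → Fin (N + 1) := fun x => if (x : E) ∈ K then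
    (if T ≤ π x then Fin.last N else i₀.castSucc) else (κ x).castSucc
  have hκA : κ₀ ⁻¹' {i₀.castSucc} = Subtype.val ⁻¹' {x ∈ K | π x ≤ t 0} := by
    ext ⟨x, hx⟩
    simp only [mem_preimage, mem_singleton_iff, κ₀]
    by_cases hxK : x ∈ K
    · rw [if_pos hxK]
      by_cases hxT : T ≤ π x
      · rw [if_pos hxT]
        refine ⟨fun h => absurd h.symm (Fin.castSucc_lt_last i₀).ne, fun h => ?_⟩
        exact absurd (lt_of_lt_of_le (htT 0) hxT) (not_lt.2 h.2)
      · rw [if_neg hxT]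
        refine ⟨fun _ => ⟨hxK, ?_⟩, fun _ => rfl⟩
        by_contra hcon
        exact hx ⟨hxK, not_le.1 hcon, not_le.1 hxT⟩
    · rw [if_neg hxK]
      refine ⟨fun h => absurd (Fin.castSucc_injective N h) hxK, fun h => absurd h.1 hxK⟩
  have hκB : κ₀ ⁻¹' {Fin.last N} = Subtype.val ⁻¹' {x ∈ K | T ≤ π x} := by
    ext ⟨x, hx⟩
    simp only [mem_preimage, mem_singleton_iff, κ₀]
    by_cases hxK : x ∈ K
    · rw [if_pos hxK]
      by_cases hxT : T ≤ π x
      · rw [if_pos hxT]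
        exact ⟨fun _ => ⟨hxK, hxT⟩, fun _ => rfl⟩
      · rw [if_neg hxT]
        exact ⟨fun h => absurd h (Fin.castSucc_lt_last i₀).ne, fun h => absurd h.2 hxT⟩
    · rw [if_neg hxK]
      exact ⟨fun h => absurd h (Fin.castSucc_lt_last _).ne, fun h => absurd h.1 hxK⟩
  have hκi : ∀ i, i ≠ i₀ → κ₀ ⁻¹' {i.castSucc} = Subtype.val ⁻¹' (κ ⁻¹' {i}) := by
    intro i hi
    ext ⟨x, hx⟩
    simp only [mem_preimage, mem_singleton_iff, κ₀]
    by_cases hxK : x ∈ K
    · rw [if_pos hxK]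
      have hxi : κ x = i₀ := hxK
      rw [hxi]
      by_cases hxT : T ≤ π x
      · rw [if_pos hxT]
        exact ⟨fun h => absurd h.symm (Fin.castSucc_lt_last i).ne, fun h => absurd h.symm hi⟩
      · rw [if_neg hxT]
        exact ⟨fun h => absurd (Fin.castSucc_injective N h).symm hi, fun h => absurd h.symm hi⟩
    · rw [if_neg hxK]
      exact ⟨fun h => Fin.castSucc_injective N h, fun h => by rw [h]⟩
  have hiC : ∀ i, i ≠ i₀ → κ ⁻¹' {i} ⊆ Cs := by
    intro i hi x hx h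
    have h2 : κ x = i₀ := h.1
    have h3 : κ x = i := hx
    exact hi (h3.symm.trans h2)
  have hκ₀ : Continuous κ₀ := by
    rw [continuous_discrete_rng]
    refine Fin.lastCases ?_ fun i => ?_
    · rw [hκB]
      have h2 : (Subtype.val ⁻¹' {x ∈ K | T ≤ π x} : Set Cs) =
          Subtype.val ⁻¹' (K ∩ π ⁻¹' (Ioi (t 0))) := by
        ext ⟨y, hy⟩
        refine ⟨fun h => ⟨h.1, lt_of_lt_of_le (htT 0) h.2⟩, fun h => ⟨h.1, ?_⟩⟩
        by_contra hcon
        exact hy ⟨h.1, h.2, not_le.1 hcon⟩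
      rw [h2]
      exact (hopen _ isOpen_Ioi).preimage continuous_subtype_val
    · by_cases hi : i = i₀
      · rw [hi, hκA]
        have h2 : (Subtype.val ⁻¹' {x ∈ K | π x ≤ t 0} : Set Cs) =
            Subtype.val ⁻¹' (K ∩ π ⁻¹' (Iio T)) := by
          ext ⟨y, hy⟩
          refine ⟨fun h => ⟨h.1, lt_of_le_of_lt h.2 (htT 0)⟩, fun h => ⟨h.1, ?_⟩⟩
          by_contra hcon
          exact hy ⟨h.1, not_le.1 hcon, h.2⟩
        rw [h2]
        exact (hopen _ isOpen_Iio).preimage continuous_subtype_val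
      · rw [hκi i hi]
        exact ((isOpen_discrete {i}).preimage hκ).preimage continuous_subtype_val
  refine ⟨Wd P s r, inferInstance, hWc, hWl, hWn, glue (fun x : Cs => f x) f, hWf, ?_, ?_,
    fun w => κ₀ (rho w), hκ₀.comp continuous_rho, ?_⟩
  · intro w
    rw [hΦf]
    exact hfY _
  · intro y hy
    have h2 : (glue (fun x : Cs => f x) f : Wd P s r → Z) ⁻¹' {y} = Φ ⁻¹' (f ⁻¹' {y}) := by
      ext w
      rw [mem_preimage, hΦf]
      rfl
    rw [h2, ncard_preimage_of_injective_subset_range hΦi fun x _ => hΦs x]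
    exact hfk y hy
  · refine Fin.lastCases ?_ fun i => ?_
    · refine ⟨?_, ?_⟩
      · have h2 := hconn P s r hPieces (κ₀ ⁻¹' {Fin.last N})
          (by rw [hκB]; exact conn_sub (hp3 T hT).2.1 hB)
        exact h2
      · have h3 : (1 : ℝ) ∈ Icc (0 : ℝ) 1 := ⟨zero_le_one, le_rfl⟩
        have h4 : α 1 ∈ {x ∈ K | T ≤ π x} := ⟨hC.mem 1 h3, by rw [hC.pα 1 h3]; exact hT.2⟩
        refine ⟨Wd.core ⟨α 1, hB h4⟩, ?_, h1⟩
        have h5 : (⟨α 1, hB h4⟩ : Cs) ∈ κ₀ ⁻¹' {Fin.last N} := by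
          rw [hκB]; exact h4
        exact h5
    · by_cases hi : i = i₀
      · refine ⟨?_, ?_⟩
        · have h2 := hconn P s r hPieces (κ₀ ⁻¹' {i.castSucc})
            (by rw [hi, hκA]; exact conn_sub (hp2 (t 0) (ht 0)).2.1 hA)
          exact h2
        · have h3 : (0 : ℝ) ∈ Icc (0 : ℝ) 1 := ⟨le_rfl, zero_le_one⟩
          have h4 : α 0 ∈ {x ∈ K | π x ≤ t 0} :=
            ⟨hC.mem 0 h3, by rw [hC.pα 0 h3]; exact (ht 0).1⟩
          refine ⟨Wd.core ⟨α 0, hA h4⟩, ?_, h0⟩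
          have h5 : (⟨α 0, hA h4⟩ : Cs) ∈ κ₀ ⁻¹' {i.castSucc} := by
            rw [hi, hκA]; exact h4
          exact h5
      · refine ⟨?_, ?_⟩
        · have h2 := hconn P s r hPieces (κ₀ ⁻¹' {i.castSucc})
            (by rw [hκi i hi]; exact conn_sub (hκc i).1 (hiC i hi))
          exact h2
        · obtain ⟨x, hx, hxp⟩ := (hκc i).2
          refine ⟨Wd.core ⟨x, hiC i hi hx⟩, ?_, hxp⟩
          have h5 : (⟨x, hiC i hi hx⟩ : Cs) ∈ κ₀ ⁻¹' {i.castSucc} := by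
            rw [hκi i hi]; exact hx
          exact h5

/-- The surgery, for an increasing sequence, before dropping the first terms. -/
theorem step_inc' (hcomp : S_compact) (hconn : S_conn) (hlc : S_lc) (hcirc : S_circle)
    (hglue : S_glue) (hparts : S_parts) (Z : Type) [MetricSpace Z] (k : ℕ) (Y : Set Z) (p : Z)
    (N : ℕ) (E : Type) [MetricSpace E] [CompactSpace E] [LocallyConnectedSpace E]
    (hE : NoCircle E) (f : E → Z) (hf : Continuous f) (hfY : ∀ x, f x ∈ Y)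
    (hfk : ∀ y ∈ Y, (f ⁻¹' {y}).ncard = k) (κ : E → Fin N) (hκ : Continuous κ)
    (hκc : ∀ i, IsConnected (κ ⁻¹' {i}) ∧ ∃ x, κ x = i ∧ f x = p) (i₀ : Fin N)
    (α : ℝ → E) (π : E → ℝ) (hC : Comb (κ ⁻¹' {i₀}) α π) (h0 : f (α 0) = p) (h1 : f (α 1) = p)
    (t : ℕ → ℝ) (T : ℝ) (m : ℕ → E) (u : E) (ht : ∀ j, t j ∈ Icc (0 : ℝ) 1)
    (hT : T ∈ Icc (0 : ℝ) 1) (hmono : StrictMono t) (hlim : Tendsto t atTop (𝓝 T))
    (hfm : ∀ j, f (m j) = f (α (t j))) (hmu : Tendsto m atTop (𝓝 u)) (hu : u ≠ α T) :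
    Good Z k Y p (N + 1) := by
  have hε : 0 < dist u (α T) / 2 := half_pos (dist_pos.2 hu)
  obtain ⟨δ, hδ, hδT⟩ := (hparts E _ α π hC).1 T hT _ hε
  obtain ⟨n₁, hn₁⟩ := (Metric.tendsto_atTop.1 hlim) δ hδ
  obtain ⟨n₂, hn₂⟩ := (Metric.tendsto_atTop.1 hmu) _ hε
  have htT : ∀ j, t j < T := fun j =>
    lt_of_lt_of_le (hmono (Nat.lt_succ_self j)) (hmono.monotone.ge_of_tendsto hlim _)
  refine step_inc hcomp hconn hlc hcirc hglue hparts Z k Y p N E hE f hf hfY hfk κ hκ hκc i₀ α π hC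
    h0 h1 (fun j => t (j + (n₁ + n₂))) T (fun j => m (j + (n₁ + n₂))) (fun j => ht _) hT
    (fun a b hab => hmono (Nat.add_lt_add_right hab _)) ?_ (fun j => hfm _) ?_
  · exact (tendsto_add_atTop_iff_nat (n₁ + n₂)).2 hlim
  · rintro j ⟨hK, hlt, hgt⟩
    have h2 := hn₁ (0 + (n₁ + n₂)) (by omega)
    rw [Real.dist_eq, abs_sub_comm, abs_of_pos (by linarith [htT (0 + (n₁ + n₂))])] at h2
    have h3 := hδT _ hK (ne_of_lt hgt) (by
      rw [abs_sub_comm, abs_of_pos (by linarith)]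
      linarith)
    have h4 := hn₂ (j + (n₁ + n₂)) (by omega)
    have h5 := dist_triangle_left u (α T) (m (j + (n₁ + n₂)))
    linarith

/-- One surgery. -/
theorem stepS : S_step := by
  intro hcomp hconn hlc hcirc hglue hlpc hcomb hparts hsel Z _ k Y p N hk hp hN hNk hgood
  obtain ⟨E, mE, hEc, hElc, hEn, f, hf, hfY, hfk, κ, hκ, hκc⟩ := hgood
  obtain ⟨b, hb, b', hb', hbb, hκb⟩ : ∃ b ∈ f ⁻¹' {p}, ∃ b' ∈ f ⁻¹' {p}, b ≠ b' ∧ κ b = κ b' := by
    refine exists_ne_map_eq_of_ncard_lt_of_maps_to (t := (univ : Set (Fin N))) ?_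
      (fun _ _ => mem_univ _) (finite_univ)
    rw [ncard_univ, Nat.card_fin, hfk p hp]
    exact hNk
  have hclopen : IsClopen (κ ⁻¹' {κ b}) := (isClopen_discrete {κ b}).preimage hκ
  obtain ⟨α, π, hC, hα0, hα1⟩ := hcomb hlpc E hEn (κ ⁻¹' {κ b}) hclopen (hκc _).1 b rfl b'
    hκb.symm hbb
  have hpart : ∀ x : E, ∃ y, y ≠ x ∧ f y = f x := by
    intro x
    have h2 : 1 < (f ⁻¹' {f x}).ncard := by rw [hfk _ (hfY x)]; omega
    obtain ⟨y, hy, hyx⟩ := exists_ne_of_one_lt_ncard h2 x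
    exact ⟨y, hyx, hy⟩
  obtain ⟨t, T, m, u, ht, hT, hmono, hlim, hfm, hmu, hu⟩ := hsel E Z f α hf hC.cα hpart
  rcases hmono with hmono | hmono
  · exact step_inc' hcomp hconn hlc hcirc hglue hparts Z k Y p N E hEn f hf hfY hfk κ hκ hκc (κ b)
      α π hC (by rw [hα0]; exact hb) (by rw [hα1]; exact hb') t T m u ht hT hmono hlim hfm hmu hu
  · refine step_inc' hcomp hconn hlc hcirc hglue hparts Z k Y p N E hEn f hf hfY hfk κ hκ hκc (κ b)
      (fun t => α (1 - t)) (fun x => 1 - π x) (comb_rev hC) ?_ ?_ (fun j => 1 - t j) (1 - T) m u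
      (fun j => ⟨by linarith [(ht j).2], by linarith [(ht j).1]⟩)
      ⟨by linarith [hT.2], by linarith [hT.1]⟩
      (fun a b hab => by have := hmono hab; simp only; linarith) (tendsto_const_nhds.sub hlim)
      (fun j => ?_) hmu ?_
    · simp only [sub_zero]
      rw [hα1]; exact hb'
    · simp only [sub_self]
      rw [hα0]; exact hb
    · simp only [sub_sub_cancel]
      exact hfm j
    · simp only [sub_sub_cancel]
      exact hu

end Pool.Agent.Q238.KT
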